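import Pool.Agent.ASD.Stmts4
import Pool.Agent.ASD.Stmts8

/-!
# ASD, TFH: the sum of the central characters is divisible by `ℓ`
-/

open scoped BigOperators

noncomputable section

namespace Pool.Agent.PP.SD.H56

open Pool.Agent.Helper51_AWC Pool.Agent.Helper79_WRA Pool.Agent.PP Pool.Agent.PP.KF
open Pool.Agent.PP.K9 Pool.Agent.PP.K9.H97 Pool.Agent.PP.H75 Pool.Agent.PP.T3 Pool.Agent.PP.SO
open Pool.Agent.PP.SD

attribute [local instance] Ideal.Quotient.field

/-- a natural number which is zero in the residue field is divisible by `ℓ` -/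
theorem dvd_of_res {ℓ : ℕ} [Fact ℓ.Prime] (M : Ideal (integralClosure ℤ ℂ)) [M.IsMaximal]
    (hM : (ℓ : integralClosure ℤ ℂ) ∈ M) (n : ℤ) (h : (n : FF M) = 0) : (ℓ : ℤ) ∣ n := by
  have hp : ℓ.Prime := Fact.out
  by_contra hn
  have hc : IsCoprime (ℓ : ℤ) n := by
    rw [Int.isCoprime_iff_gcd_eq_one]
    have h1 := (Nat.coprime_primes hp hp)
    rw [Int.gcd_comm]
    have h2 : Nat.Coprime ℓ n.natAbs := (Nat.Prime.coprime_iff_not_dvd hp).2 (fun h3 =>
      hn (Int.natCast_dvd.2 h3))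
    exact Nat.Coprime.symm h2
  obtain ⟨a, b, hab⟩ := hc
  have h0 : ((ℓ : ℤ) : FF M) = 0 := by
    have h1 : ((ℓ : ℕ) : FF M) = 0 := by
      have := (Ideal.Quotient.eq_zero_iff_mem (I := M)).2 hM
      rwa [map_natCast] at this
    rw [Int.cast_natCast]
    exact h1
  have h4 : ((a * (ℓ : ℤ) + b * n : ℤ) : FF M) = ((1 : ℤ) : FF M) := by rw [hab]
  rw [Int.cast_add, Int.cast_mul, Int.cast_mul, h0, h, mul_zero, mul_zero, add_zero,
    Int.cast_one] at h4
  exact zero_ne_one h4

theorem div_RM {ℓ : ℕ} [Fact ℓ.Prime] (M : Ideal (integralClosure ℤ ℂ)) [M.IsMaximal]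
    (hM : (ℓ : integralClosure ℤ ℂ) ∈ M) (q : ℚ) (hq : q ∈ SOR.Rl ℓ) (hq' : (q : ℂ) ∈ RM M)
    (h : rr M (q : ℂ) = 0) : (q : ℂ) / ℓ ∈ RM M := by
  have hp : ℓ.Prime := Fact.out
  have hden : (q.den : ℂ) ≠ 0 := Nat.cast_ne_zero.2 q.den_nz
  have hl0 : (ℓ : ℂ) ≠ 0 := Nat.cast_ne_zero.2 hp.ne_zero
  have h1 : ((q.num : ℤ) : ℂ) = (q.den : ℂ) * q := by
    rw [Rat.cast_def]
    field_simp
  have h2 := rr_mul (rr_nat (M := M) q.den).1 hq'
  rw [← h1, h, mul_zero, (rr_int (M := M) q.num).2] at h2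
  obtain ⟨k, hk⟩ := dvd_of_res M hM q.num h2
  refine ⟨(q.den : integralClosure ℤ ℂ), (k : integralClosure ℤ ℂ), ?_, ?_⟩
  · intro hd
    have h3 : ((q.den : ℤ) : FF M) = 0 := by
      have := (Ideal.Quotient.eq_zero_iff_mem (I := M)).2 hd
      rw [map_natCast] at this
      rw [Int.cast_natCast]
      exact this
    have h4 := dvd_of_res M hM q.den h3
    exact hq (Int.natCast_dvd_natCast.1 h4)
  · have h5 : ((q.num : ℤ) : ℂ) = (ℓ : ℂ) * (k : ℂ) := by
      rw [hk]
      push_cast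
      ring
    have h6 : ((q.den : integralClosure ℤ ℂ) : ℂ) = (q.den : ℂ) := by
      simp
    have h7 : ((k : integralClosure ℤ ℂ) : ℂ) = (k : ℂ) := by
      simp
    rw [h6, h7, mul_div_assoc', ← h1, h5, mul_div_assoc, mul_comm (ℓ : ℂ), div_mul_cancel₀ _ hl0]

theorem ln_congr {K F : Type} [Group K] [Field F] (H H' : Subgroup K) (f f' : K → F) (h : H = H')
    (h' : f = f') : ln (fun t : H => f t) = ln (fun t : H' => f' t) := by
  subst h h'
  rfl

theorem tfh (rda : RdaStmt) (hL12 : HL12Stmt) (hOmr : HOmrStmt) (kld : KldStmt) : TfhStmt := by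
  intro ℓ _ M _ hM h2 V₀ G _ _ _ _ E₀ hE B hB A κ hA hκ
  classical
  have hp : ℓ.Prime := Fact.out
  obtain ⟨hEA, B', hB', he, hg, hi, hb, hC, hcard, hfc, hCh, hL1⟩ :=
    rda ℓ M hM h2 V₀ G E₀ hE B hB A
  rw [← hL1 κ]
  have := Fintype.ofFinite V₀
  have := Fintype.ofFinite (B.C A)
  set E := St E₀ A with hEdef
  -- an element of `E` which fixes some `v ∉ A` is `1`
  have hfix : ∀ σ ∈ E, ∀ v : V₀, v ∉ A → σ v = v → σ = 1 := by
    intro σ hσ v hv hσv
    have hK : ∀ x, σ x = x := by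
      let F : Subgroup V₀ :=
        { carrier := {x | σ x = x}
          one_mem' := map_one σ
          mul_mem' := fun {a b} ha hb => by
            show σ (a * b) = a * b
            rw [map_mul, show σ a = a from ha, show σ b = b from hb]
          inv_mem' := fun {a} ha => by
            show σ a⁻¹ = a⁻¹
            rw [map_inv, show σ a = a from ha] }
      have hAF : A ≤ F := fun w hw => hσ.2 w hw
      have hvF : v ∈ F := hσv
      have hd : Nat.card F ∣ ℓ ^ 2 := by
        rw [← hE.cd]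
        exact Subgroup.card_subgroup_dvd_card F
      obtain ⟨j, hj, hjF⟩ := (Nat.dvd_prime_pow hp).1 hd
      have hlt : Nat.card A < Nat.card F := by
        refine lt_of_le_of_ne (Nat.le_of_dvd Nat.card_pos (Subgroup.card_dvd_of_le hAF)) ?_
        intro heq
        have := Subgroup.eq_of_le_of_card_ge hAF heq.ge
        exact hv (this ▸ hvF)
      have hj2 : j = 2 := by
        rw [hA, hjF] at hlt
        have : 1 < j := by
          by_contra hj1
          push Not at hj1
          have h3 : ℓ ^ j ≤ ℓ ^ 1 := Nat.pow_le_pow_right hp.pos hj1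
          rw [pow_one] at h3
          omega
        omega
      rw [hj2, ← hE.cd] at hjF
      have hFt : F = ⊤ := Subgroup.eq_top_of_card_eq F hjF
      intro x
      have : x ∈ F := hFt ▸ Subgroup.mem_top x
      exact this
    apply MulEquiv.ext
    intro x
    exact hK x
  have hEs : ∀ v : V₀, v ∉ A → Nat.card (Es E v) = 1 := by
    intro v hv
    rw [Nat.card_eq_one_iff_unique]
    refine ⟨⟨fun a b => ?_⟩, ⟨1⟩⟩
    apply Subtype.ext
    rw [hfix a.1 a.2.1 v hv a.2.2, hfix b.1 b.2.1 v hv b.2.2]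
  have hEs2 : ∀ v : V₀, v ∈ A → Nat.card (Es E v) = Nat.card E := by
    intro v hv
    have : Es E v = E := by
      ext σ
      exact ⟨fun h => h.1, fun h => ⟨h, h.2 v hv⟩⟩
    rw [this]
  have hn : nE E κ = Nat.card E := by
    unfold nE
    rw [hEs κ hκ, Nat.div_one]
  -- the number of the characters
  obtain ⟨k1, k2⟩ := kld ℓ M hM h2 V₀ (B.C A) E hEA B' hB'
  have hdiv : ℓ ∣ Nat.card E * (IrrE M B'.e).ncard := by
    rw [k1, finsum_eq_sum_of_fintype]
    have hsplit : ∀ v : V₀, Nat.card (Es E v) *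
        ln (fun t : B'.C (Subgroup.zpowers v) => B'.b (Subgroup.zpowers v) t) =
        if v ∈ A then Nat.card E * ln (fun t : B'.C A => B'.b A t) else 1 := by
      intro v
      by_cases hv : v ∈ A
      · rw [if_pos hv, hEs2 v hv]
        congr 1
        have hsup : A ⊔ Subgroup.zpowers v = A ⊔ A := by
          rw [sup_idem, sup_eq_left, Subgroup.zpowers_le]
          exact hv
        apply ln_congr
        · ext t
          rw [hC, hC, hsup]
        · funext t
          rw [hb, hb, hsup]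
      · rw [if_neg hv, hEs v hv, one_mul]
        refine k2 _ ⟨?_, ?_⟩
        · rw [Ne, Subgroup.zpowers_eq_bot]
          rintro rfl
          exact hv (one_mem _)
        · intro σ hσ h
          exact hfix σ hσ v hv (h v (Subgroup.mem_zpowers v))
    rw [Finset.sum_congr rfl fun v _ => hsplit v, Finset.sum_ite]
    have hcA : (Finset.univ.filter fun v : V₀ => v ∈ A).card = ℓ := by
      rw [← hA, Nat.card_eq_fintype_card, Fintype.card_subtype]
    have hcA' : (Finset.univ.filter fun v : V₀ => v ∉ A).card = ℓ ^ 2 - ℓ := by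
      have h3 := Finset.card_filter_add_card_filter_not (s := (Finset.univ : Finset V₀))
        (fun v => v ∈ A)
      rw [hcA, Finset.card_univ, ← Nat.card_eq_fintype_card, hE.cd] at h3
      omega
    rw [Finset.sum_const, Finset.sum_const, hcA, hcA', smul_eq_mul, smul_eq_mul, mul_one]
    refine dvd_add (dvd_mul_right _ _) ?_
    exact Nat.dvd_sub (dvd_pow_self ℓ (by norm_num)) dvd_rfl
  -- the residue
  obtain ⟨q, hq, hq'⟩ := (hL12 ℓ M hM V₀ hE.ex E (B.C A) B' hB').1 κ
  have hfin : (IrrE M B'.e).Finite := irr_finite'.subset (fun θ h => h.1)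
  have hsum : L1 B' κ = ∑ χ ∈ hfin.toFinset, cv (fc B' ⊥ κ) χ := by
    unfold L1
    exact finsum_mem_eq_finite_toFinset_sum _ hfin
  have hmem : ∀ χ ∈ hfin.toFinset, cv (fc B' ⊥ κ) χ ∈ RM M := fun χ hχ =>
    (hOmr ℓ M hM V₀ E (B.C A) B' hB' κ χ (hfin.mem_toFinset.1 hχ)).1
  have hres : rr M (L1 B' κ) = 0 := by
    rw [hsum, rr_sum hfin.toFinset _ hmem]
    have h3 : ∀ χ ∈ hfin.toFinset, rr M (cv (fc B' ⊥ κ) χ) = ((Nat.card E : ℕ) : FF M) := by
      intro χ hχ
      rw [(hOmr ℓ M hM V₀ E (B.C A) B' hB' κ χ (hfin.mem_toFinset.1 hχ)).2, hn]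
    rw [Finset.sum_congr rfl h3, Finset.sum_const, nsmul_eq_mul,
      ← Set.ncard_eq_toFinset_card _ hfin, ← Nat.cast_mul, mul_comm]
    obtain ⟨c, hc⟩ := hdiv
    have h4 : ((ℓ : ℕ) : FF M) = 0 := by
      have := (Ideal.Quotient.eq_zero_iff_mem (I := M)).2 hM
      rwa [map_natCast] at this
    rw [hc, Nat.cast_mul, h4, zero_mul]
  have hmem2 : L1 B' κ ∈ RM M := by
    rw [hsum]
    exact Subring.sum_mem _ hmem
  rw [hq'] at hres hmem2 ⊢
  exact div_RM M hM q hq hmem2 hres

end Pool.Agent.PP.SD.H56
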